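import Mathlib

/-!
# Linear Cauchy-Davenport over algebraically closed fields
-/

set_option autoImplicit false

namespace Pool.Agent.K1H90.AL

open Module Submodule

lemma fr_map {K L : Type} [Field K] [Field L] [Algebra K L] {e : L} (he : e ≠ 0)
    (A : Submodule K L) : finrank K (A.map (LinearMap.mulLeft K e)) = finrank K A := by
  have hinj : Function.Injective (LinearMap.mulLeft K e) := fun x y h => by
    simpa [he] using h
  exact (Submodule.equivMapOfInjective (LinearMap.mulLeft K e) hinj A).symm.finrank_eq

theorem lcd {K L : Type} [Field K] [IsAlgClosed K] [Field L] [Algebra K L] (n : ℕ) :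
    ∀ (A B : Submodule K L), FiniteDimensional K A → FiniteDimensional K B → A ≠ ⊥ → B ≠ ⊥ →
      finrank K B ≤ n → finrank K A + finrank K B ≤ finrank K (A * B : Submodule K L) + 1 := by
  induction n with
  | zero =>
    intro A B hA hB hA0 hB0 hn
    exfalso
    apply hB0
    exact Submodule.finrank_eq_zero.1 (Nat.le_zero.1 hn)
  | succ n ih =>
    intro A B hA hB hA0 hB0 hn
    have hAf : A.FG := (Submodule.fg_iff_finiteDimensional A).2 hA
    have hBf : B.FG := (Submodule.fg_iff_finiteDimensional B).2 hB
    have hAB : FiniteDimensional K (A * B : Submodule K L) :=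
      (Submodule.fg_iff_finiteDimensional _).1 (hAf.mul hBf)
    by_cases h : ∀ e : L, e ≠ 0 → (∃ b ∈ B, b ≠ 0 ∧ e * b ∈ A) → ∀ b ∈ B, e * b ∈ A
    · obtain ⟨b0, hb0, hb00⟩ := Submodule.exists_mem_ne_zero_of_ne_bot hB0
      have h1 : ∀ b ∈ B, ∀ a ∈ A, (b / b0) * a ∈ A := by
        intro b hb a ha
        by_cases ha0 : a = 0
        · rw [ha0, mul_zero]; exact A.zero_mem
        · have h2 := h (a / b0) (div_ne_zero ha0 hb00) ⟨b0, hb0, hb00, by
            rw [div_mul_cancel₀ a hb00]; exact ha⟩ b hb
          have h3 : b / b0 * a = a / b0 * b := by field_simp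
          rw [h3]
          exact h2
      have h2 : ∀ b ∈ B, ∃ t : K, b = t • b0 := by
        intro b hb
        have h3 : IsIntegral K (b / b0) :=
          isIntegral_of_smul_mem_submodule A hA0 hAf (b / b0) (fun a ha => h1 b hb a ha)
        obtain ⟨t, ht⟩ := minpoly.mem_range_of_degree_eq_one K _
          (IsAlgClosed.degree_eq_one_of_irreducible K (minpoly.irreducible h3))
        refine ⟨t, ?_⟩
        rw [Algebra.smul_def, ht, div_mul_cancel₀ b hb00]
      have h3 : finrank K B ≤ 1 := by
        refine finrank_le_one ⟨b0, hb0⟩ ?_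
        rintro ⟨b, hb⟩
        obtain ⟨t, ht⟩ := h2 b hb
        exact ⟨t, Subtype.ext ht.symm⟩
      have h4 : finrank K A ≤ finrank K (A * B : Submodule K L) := by
        rw [← fr_map hb00 A]
        refine Submodule.finrank_mono ?_
        rintro _ ⟨a, ha, rfl⟩
        rw [LinearMap.mulLeft_apply, mul_comm b0 a]
        exact Submodule.mul_mem_mul ha hb0
      omega
    · push Not at h
      obtain ⟨e, he, ⟨b1, hb1, hb10, hb1A⟩, b2, hb2, hb2A⟩ := h
      set E := LinearMap.mulLeft K e with hE
      have hEB : FiniteDimensional K (B.map E) :=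
        (Submodule.fg_iff_finiteDimensional _).1 (hBf.map E)
      have hA' : FiniteDimensional K (A ⊔ B.map E : Submodule K L) := inferInstance
      have hB' : FiniteDimensional K (B ⊓ A.comap E : Submodule K L) :=
        Submodule.finiteDimensional_of_le inf_le_left
      have hlt : finrank K (B ⊓ A.comap E : Submodule K L) < finrank K B := by
        refine Submodule.finrank_lt_finrank_of_lt (lt_of_le_of_ne inf_le_left ?_)
        intro h1
        have h2 : b2 ∈ B ⊓ A.comap E := by rw [h1]; exact hb2
        exact hb2A h2.2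
      have h1 := ih (A ⊔ B.map E) (B ⊓ A.comap E) hA' hB'
        (fun h => hA0 (le_bot_iff.1 (h ▸ le_sup_left)))
        (fun h => hb10 (by
          have : b1 ∈ B ⊓ A.comap E := ⟨hb1, hb1A⟩
          rw [h] at this
          exact (Submodule.mem_bot K).1 this)) (by omega)
      have h2 : finrank K ((A ⊔ B.map E) * (B ⊓ A.comap E) : Submodule K L) ≤
          finrank K (A * B : Submodule K L) := by
        refine Submodule.finrank_mono ?_
        rw [Submodule.mul_le]
        intro m hm x hx
        obtain ⟨a, ha, y, ⟨b, hb, rfl⟩, rfl⟩ := Submodule.mem_sup.1 hm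
        rw [add_mul]
        refine Submodule.add_mem _ (Submodule.mul_mem_mul ha hx.1) ?_
        have h3 : E b * x = (e * x) * b := by
          rw [hE, LinearMap.mulLeft_apply]; ring
        rw [h3]
        exact Submodule.mul_mem_mul hx.2 hb
      have h3 : (B ⊓ A.comap E).map E = A ⊓ B.map E := by
        ext x
        constructor
        · rintro ⟨b, ⟨hb, hbA⟩, rfl⟩
          exact ⟨hbA, b, hb, rfl⟩
        · rintro ⟨hxA, b, hb, rfl⟩
          exact ⟨b, ⟨hb, hxA⟩, rfl⟩
      have h4 := fr_map he (B ⊓ A.comap E)
      have h5 := fr_map he B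
      have h6 := Submodule.finrank_sup_add_finrank_inf_eq A (B.map E)
      rw [← hE, h3] at h4
      rw [← hE] at h5
      omega

end Pool.Agent.K1H90.AL
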