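import Pool.Agent.K1H90.AL.St

/-!
# Convergence of the multiple polylogarithms at roots of unity
-/

set_option autoImplicit false

namespace Pool.Agent.K1H90.AL

open Finset Filter Topology

lemma harm_le (m : ℕ) (hm : 1 ≤ m) : ∑ j ∈ Ico 1 m, (1 : ℝ) / j ≤ 1 + Real.log m := by
  obtain ⟨k, rfl⟩ : ∃ k, m = k + 1 := ⟨m - 1, by omega⟩
  have h1 := harmonic_le_one_add_log k
  have h2 : ((harmonic k : ℚ) : ℝ) = ∑ j ∈ Ico 1 (k + 1), (1 : ℝ) / j := by
    rw [harmonic_eq_sum_Icc]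
    push_cast
    refine sum_congr rfl fun j _ => ?_
    rw [one_div]
  rw [h2] at h1
  refine h1.trans ?_
  rcases Nat.eq_zero_or_pos k with rfl | hk
  · simp
  · have h3 : Real.log k ≤ Real.log ((k + 1 : ℕ) : ℝ) :=
      Real.log_le_log (by exact_mod_cast hk) (by push_cast; linarith)
    linarith

lemma term_le {x : ℕ × ℂ} (hx : 1 ≤ x.1) (hz : ‖x.2‖ = 1) (t : ℂ) (j : ℕ) (hj : 1 ≤ j) :
    ‖x.2 ^ j / (j : ℂ) ^ x.1 * t‖ ≤ ‖t‖ / j := by
  have hj' : (1 : ℝ) ≤ j := by exact_mod_cast hj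
  rw [norm_mul, norm_div, norm_pow, norm_pow, hz, one_pow, Complex.norm_natCast, div_eq_mul_one_div
    ‖t‖, mul_comm ‖t‖]
  refine mul_le_mul_of_nonneg_right ?_ (norm_nonneg _)
  refine one_div_le_one_div_of_le (by linarith) ?_
  exact le_self_pow₀ hj' (by omega)

lemma tr_bd (l : List (ℕ × ℂ)) : (∀ x ∈ l, 1 ≤ x.1 ∧ ‖x.2‖ = 1) → ∀ ε : ℝ, 0 < ε →
    ∃ C : ℝ, 0 ≤ C ∧ ∀ j : ℕ, 1 ≤ j → ‖tr l j‖ ≤ C * (j : ℝ) ^ ε := by
  induction l with
  | nil =>
    intro _ ε hε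
    refine ⟨1, zero_le_one, fun j hj => ?_⟩
    rw [tr_nil, norm_one, one_mul]
    exact Real.one_le_rpow (by exact_mod_cast hj) hε.le
  | cons x l ih =>
    intro hl ε hε
    obtain ⟨C, hC, hb⟩ := ih (fun y hy => hl y (List.mem_cons_of_mem _ hy)) (ε / 2) (by linarith)
    obtain ⟨hx, hz⟩ := hl x List.mem_cons_self
    refine ⟨C * (1 + 2 / ε), by positivity, fun m hm => ?_⟩
    have hm' : (1 : ℝ) ≤ m := by exact_mod_cast hm
    have hp : (1 : ℝ) ≤ (m : ℝ) ^ (ε / 2) := Real.one_le_rpow hm' (by linarith)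
    rw [tr_cons]
    have h1 : ‖∑ j ∈ Ico 1 m, x.2 ^ j / (j : ℂ) ^ x.1 * tr l j‖ ≤
        ∑ j ∈ Ico 1 m, C * (m : ℝ) ^ (ε / 2) * (1 / (j : ℝ)) := by
      refine (norm_sum_le _ _).trans (sum_le_sum fun j hj => ?_)
      rw [mem_Ico] at hj
      refine (term_le hx hz _ j hj.1).trans ?_
      rw [div_eq_mul_one_div]
      refine mul_le_mul_of_nonneg_right ?_ (by positivity)
      refine (hb j hj.1).trans (mul_le_mul_of_nonneg_left ?_ hC)
      exact Real.rpow_le_rpow (Nat.cast_nonneg _) (by exact_mod_cast hj.2.le) (by linarith)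
    refine h1.trans ?_
    rw [← mul_sum]
    have h2 := harm_le m hm
    have h3 : Real.log m ≤ (m : ℝ) ^ (ε / 2) / (ε / 2) :=
      Real.log_le_rpow_div (by linarith) (by linarith)
    have h4 : 1 + Real.log m ≤ (1 + 2 / ε) * (m : ℝ) ^ (ε / 2) := by
      have h5 : (m : ℝ) ^ (ε / 2) / (ε / 2) = 2 / ε * (m : ℝ) ^ (ε / 2) := by
        field_simp
      rw [h5] at h3
      linarith
    have h6 : (m : ℝ) ^ ε = (m : ℝ) ^ (ε / 2) * (m : ℝ) ^ (ε / 2) := by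
      rw [← Real.rpow_add (by linarith)]
      congr 1
      ring
    calc C * (m : ℝ) ^ (ε / 2) * ∑ j ∈ Ico 1 m, 1 / (j : ℝ) ≤
          C * (m : ℝ) ^ (ε / 2) * ((1 + 2 / ε) * (m : ℝ) ^ (ε / 2)) :=
          mul_le_mul_of_nonneg_left (h2.trans h4) (by positivity)
      _ = C * (1 + 2 / ε) * (m : ℝ) ^ ε := by
          rw [h6]
          ring

lemma b_sum : Summable fun j : ℕ => (j : ℝ) ^ (1 / 2 : ℝ) / (j : ℝ) ^ 2 := by
  refine Summable.of_nonneg_of_le (fun j => by positivity) (fun j => ?_)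
    (Real.summable_nat_rpow.2 (by norm_num : (-(3 / 2) : ℝ) < -1))
  rcases Nat.eq_zero_or_pos j with rfl | hj
  · simp
  · have hj' : (0 : ℝ) < j := by exact_mod_cast hj
    rw [← Real.rpow_natCast, ← Real.rpow_sub hj']
    norm_num

lemma range_eq (x : ℕ × ℂ) (hx : 1 ≤ x.1) (l : List (ℕ × ℂ)) (m : ℕ) :
    tr (x :: l) m = ∑ j ∈ range m, x.2 ^ j / (j : ℂ) ^ x.1 * tr l j := by
  rw [tr_cons]
  rcases Nat.eq_zero_or_pos m with rfl | hm
  · simp
  · rw [range_eq_Ico, sum_eq_sum_Ico_succ_bot hm, Nat.cast_zero, zero_pow (by omega), div_zero,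
      zero_mul, zero_add]

/-- the first argument is at least two -/
lemma conv_abs (x : ℕ × ℂ) (l : List (ℕ × ℂ)) (hx : 2 ≤ x.1) (hz : ‖x.2‖ = 1)
    (hl : ∀ y ∈ l, 1 ≤ y.1 ∧ ‖y.2‖ = 1) : ∃ y, Tendsto (tr (x :: l)) atTop (𝓝 y) := by
  obtain ⟨C, hC, hb⟩ := tr_bd l hl (1 / 2) (by norm_num)
  have h1 : Summable fun j : ℕ => x.2 ^ j / (j : ℂ) ^ x.1 * tr l j := by
    refine Summable.of_norm_bounded_eventually_nat (b_sum.mul_left C) ?_
    filter_upwards [eventually_ge_atTop 1] with j hj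
    have hj' : (1 : ℝ) ≤ j := by exact_mod_cast hj
    rw [norm_mul, norm_div, norm_pow, norm_pow, hz, one_pow, Complex.norm_natCast]
    calc 1 / (j : ℝ) ^ x.1 * ‖tr l j‖ ≤ 1 / (j : ℝ) ^ 2 * (C * (j : ℝ) ^ (1 / 2 : ℝ)) := by
          refine mul_le_mul ?_ (hb j hj) (norm_nonneg _) (by positivity)
          exact one_div_le_one_div_of_le (by positivity) (pow_le_pow_right₀ hj' hx)
      _ = C * ((j : ℝ) ^ (1 / 2 : ℝ) / (j : ℝ) ^ 2) := by ring
  refine ⟨_, h1.hasSum.tendsto_sum_nat.congr fun m => ?_⟩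
  rw [range_eq x (by omega)]

/-- the first letter is `(1, z)` with `z ≠ 1` -/
lemma conv_one (z : ℂ) (hz : ‖z‖ = 1) (hz1 : z ≠ 1) (l : List (ℕ × ℂ))
    (hl : ∀ y ∈ l, 1 ≤ y.1 ∧ ‖y.2‖ = 1) : ∃ y, Tendsto (tr ((1, z) :: l)) atTop (𝓝 y) := by
  obtain ⟨C, hC, hb⟩ := tr_bd l hl (1 / 2) (by norm_num)
  obtain ⟨C', hC', hd⟩ : ∃ C' : ℝ, 0 ≤ C' ∧ ∀ j : ℕ, 1 ≤ j →
      ‖tr l (j + 1) - tr l j‖ ≤ C' * (j : ℝ) ^ (1 / 2 : ℝ) / j := by
    cases l with
    | nil =>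
      refine ⟨0, le_rfl, fun j _ => ?_⟩
      rw [tr_nil, tr_nil, sub_self, norm_zero]
      simp
    | cons y l =>
      obtain ⟨C', hC', hb'⟩ := tr_bd l (fun z hz => hl z (List.mem_cons_of_mem _ hz)) (1 / 2)
        (by norm_num)
      obtain ⟨hy, hz⟩ := hl y List.mem_cons_self
      refine ⟨C', hC', fun j hj => ?_⟩
      rw [tr_cons, tr_cons, sum_Ico_succ_top hj, add_sub_cancel_left]
      refine (term_le hy hz _ j hj).trans ?_
      exact div_le_div_of_nonneg_right (hb' j hj) (Nat.cast_nonneg _)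
  have hz0 : 1 - z ≠ 0 := sub_ne_zero.2 (Ne.symm hz1)
  set g : ℕ → ℂ := fun j => tr l j / j with hg
  set a : ℕ → ℂ := fun j => z ^ j * g j with ha
  have hS : ∀ m, tr ((1, z) :: l) m = (1 - z)⁻¹ * (a 0 - a m) -
      (1 - z)⁻¹ * ∑ j ∈ range m, z ^ (j + 1) * (g j - g (j + 1)) := by
    intro m
    rw [range_eq (1, z) le_rfl, ← sum_range_sub' a m, mul_sum, mul_sum, ← sum_sub_distrib]
    refine sum_congr rfl fun j _ => ?_
    rw [ha, hg]
    simp only [pow_one]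
    have h1 : z ^ j / (j : ℂ) * tr l j = (1 - z)⁻¹ * ((1 - z) * (z ^ j * (tr l j / j))) := by
      rw [inv_mul_cancel_left₀ hz0]
      ring
    rw [h1]
    ring
  have h1 : Summable fun j : ℕ => z ^ (j + 1) * (g j - g (j + 1)) := by
    refine Summable.of_norm_bounded_eventually_nat (b_sum.mul_left (C + C')) ?_
    filter_upwards [eventually_ge_atTop 1] with j hj
    have hj' : (1 : ℝ) ≤ j := by exact_mod_cast hj
    have hj0 : (j : ℂ) ≠ 0 := by exact_mod_cast (by omega : j ≠ 0)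
    have hj1 : ((j + 1 : ℕ) : ℂ) ≠ 0 := by exact_mod_cast (by omega : j + 1 ≠ 0)
    rw [norm_mul, norm_pow, hz, one_pow, one_mul]
    have h2 : g j - g (j + 1) = tr l j / (j * ((j + 1 : ℕ) : ℂ)) -
        (tr l (j + 1) - tr l j) / ((j + 1 : ℕ) : ℂ) := by
      rw [hg]
      simp only
      field_simp
      push_cast
      ring
    rw [h2]
    refine (norm_sub_le _ _).trans ?_
    rw [norm_div, norm_div, norm_mul, Complex.norm_natCast, Complex.norm_natCast]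
    have h3 : ‖tr l j‖ / ((j : ℝ) * ((j + 1 : ℕ) : ℝ)) ≤
        C * (j : ℝ) ^ (1 / 2 : ℝ) / ((j : ℝ) ^ 2) := by
      refine div_le_div₀ (by positivity) (hb j hj) (by positivity) ?_
      rw [sq]
      refine mul_le_mul_of_nonneg_left ?_ (by positivity)
      push_cast
      linarith
    have h4 : ‖tr l (j + 1) - tr l j‖ / ((j + 1 : ℕ) : ℝ) ≤
        C' * (j : ℝ) ^ (1 / 2 : ℝ) / ((j : ℝ) ^ 2) := by
      have h5 : C' * (j : ℝ) ^ (1 / 2 : ℝ) / ((j : ℝ) ^ 2) =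
          (C' * (j : ℝ) ^ (1 / 2 : ℝ) / j) / j := by
        rw [sq, div_div]
      rw [h5]
      refine div_le_div₀ (by positivity) (hd j hj) (by positivity) ?_
      push_cast
      linarith
    calc _ ≤ C * (j : ℝ) ^ (1 / 2 : ℝ) / ((j : ℝ) ^ 2) + C' * (j : ℝ) ^ (1 / 2 : ℝ) / ((j : ℝ) ^ 2) :=
          add_le_add h3 h4
      _ = _ := by ring
  have h2 : Tendsto a atTop (𝓝 0) := by
    rw [tendsto_zero_iff_norm_tendsto_zero]
    have h3 : Tendsto (fun j : ℕ => C * (j : ℝ) ^ (-(1 / 2) : ℝ)) atTop (𝓝 0) := by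
      have h4 := (tendsto_rpow_neg_atTop (by norm_num : (0 : ℝ) < 1 / 2)).comp
        tendsto_natCast_atTop_atTop
      have h5 := h4.const_mul C
      rw [mul_zero] at h5
      exact h5
    refine squeeze_zero' (Eventually.of_forall fun j => norm_nonneg _) ?_ h3
    filter_upwards [eventually_ge_atTop 1] with j hj
    have hj' : (0 : ℝ) < j := by exact_mod_cast hj
    rw [ha, hg]
    simp only
    rw [norm_mul, norm_pow, hz, one_pow, one_mul, norm_div, Complex.norm_natCast]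
    rw [div_le_iff₀ hj']
    refine (hb j hj).trans (le_of_eq ?_)
    rw [mul_assoc]
    congr 1
    conv_rhs => rw [← Real.rpow_one (j : ℝ), ← Real.rpow_mul hj'.le, ← Real.rpow_add hj']
    norm_num
  have h3 := ((tendsto_const_nhds (x := a 0)).sub h2).const_mul (1 - z)⁻¹
  have h4 := h1.hasSum.tendsto_sum_nat.const_mul (1 - z)⁻¹
  exact ⟨_, (h3.sub h4).congr fun m => (hS m).symm⟩

/-- admissible words converge -/
lemma conv_adm {N w : ℕ} (hN : N ≠ 0) {u : List (ℕ × ℂ)} (hu : Adm N w u) :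
    ∃ y, Tendsto (tr u) atTop (𝓝 y) := by
  have hn : ∀ x ∈ u, 1 ≤ x.1 ∧ ‖x.2‖ = 1 := fun x hx =>
    ⟨(hu.2.1 x hx).1, Complex.norm_eq_one_of_pow_eq_one (hu.2.1 x hx).2 hN⟩
  cases u with
  | nil => exact absurd rfl hu.1
  | cons x l =>
    have hx : x ≠ (1, 1) := hu.2.2.2 x (by simp)
    have hx1 := hn x List.mem_cons_self
    have hl := fun y hy => hn y (List.mem_cons_of_mem _ hy)
    rcases Nat.lt_or_ge x.1 2 with h | h
    · have h1 : x.1 = 1 := by omega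
      have h3 : x = (1, x.2) := Prod.ext h1 rfl
      have h4 : x.2 ≠ 1 := fun h4 => hx (Prod.ext h1 h4)
      rw [h3]
      exact conv_one x.2 hx1.2 h4 l hl
    · exact conv_abs x l h hx1.2 hl

end Pool.Agent.K1H90.AL
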