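import Pool.Agent.K1H90.AL.Cv
import Pool.Agent.H297R2.BakerThm

/-!
# Lower bounds for the dimensions of the spaces of cyclotomic multiple zeta values
-/

set_option autoImplicit false

namespace Pool.Agent.K1H90.AL

open Finset Filter Topology

/-- the space of the cyclotomic multiple zeta values -/
noncomputable def Zs (N w : ℕ) : Submodule ℚ ℂ :=
  Submodule.span ℚ {x | ∃ u, Adm N w u ∧ Tendsto (tr u) atTop (𝓝 x)}

lemma sum_mem {N : ℕ} (hN : N ≠ 0) (w : ℕ) (L : List (List (ℕ × ℂ))) (hL : ∀ u ∈ L, Adm N w u) :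
    ∃ y ∈ Zs N w, Tendsto (fun m => (L.map fun u => tr u m).sum) atTop (𝓝 y) := by
  induction L with
  | nil =>
    refine ⟨0, Submodule.zero_mem _, ?_⟩
    simp only [List.map_nil, List.sum_nil]
    exact tendsto_const_nhds
  | cons u L ih =>
    obtain ⟨y, hy, hyt⟩ := ih fun v hv => hL v (List.mem_cons_of_mem _ hv)
    have hu := hL u List.mem_cons_self
    obtain ⟨x, hx⟩ := conv_adm hN hu
    refine ⟨x + y, Submodule.add_mem _ (Submodule.subset_span ⟨u, hu, hx⟩) hy, ?_⟩
    simp only [List.map_cons, List.sum_cons]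
    exact hx.add hyt

lemma mul_mem {N : ℕ} (hN : N ≠ 0) {a b : ℕ} {x y : ℂ} (hx : x ∈ Zs N a) (hy : y ∈ Zs N b) :
    x * y ∈ Zs N (a + b) := by
  have h : Zs N a * Zs N b ≤ Zs N (a + b) := by
    rw [Zs, Zs, Submodule.span_mul_span, Submodule.span_le]
    rintro _ ⟨x, ⟨u, hu, hx⟩, y, ⟨v, hv, hy⟩, rfl⟩
    obtain ⟨z, hz, hzt⟩ := sum_mem hN (a + b) (st u v) (st_adm hu hv)
    have h1 : x * y = z :=
      tendsto_nhds_unique (hx.mul hy) (hzt.congr fun m => (tr_mul u v m).symm)
    show x * y ∈ _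
    rw [h1]
    exact hz
  exact h (Submodule.mul_mem_mul hx hy)

/-- the depth one value of weight one -/
lemma li_mem {N : ℕ} (hN : N ≠ 0) {z : ℂ} (hz : z ^ N = 1) (hz1 : z ≠ 1) :
    Complex.log (1 - z) ∈ Zs N 1 := by
  have hn : ‖z‖ = 1 := Complex.norm_eq_one_of_pow_eq_one hz hN
  have hadm : Adm N 1 [((1 : ℕ), z)] := by
    refine ⟨List.cons_ne_nil _ _, fun x hx => ?_, by simp, fun x hx => ?_⟩
    · rw [List.mem_singleton] at hx
      rw [hx]
      exact ⟨le_rfl, hz⟩
    · simp only [List.head?_cons, Option.mem_def, Option.some.injEq] at hx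
      rw [← hx]
      intro h
      exact hz1 (congrArg Prod.snd h)
  obtain ⟨y, hy⟩ := conv_adm hN hadm
  have h1 : Tendsto (fun n => ∑ i ∈ range n, z ^ i / (i : ℂ)) atTop (𝓝 y) := by
    refine hy.congr fun m => ?_
    rw [range_eq _ le_rfl]
    refine sum_congr rfl fun j _ => ?_
    rw [tr_nil, pow_one, mul_one]
  have h2 := Complex.tendsto_tsum_powerSeries_nhdsWithin_lt h1
  rw [tendsto_map'_iff] at h2
  have h3 : Tendsto (fun x : ℝ => -Complex.log (1 - z * x)) (𝓝[<] 1) (𝓝 y) := by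
    refine h2.congr' ?_
    have h4 : Set.Ioo (0 : ℝ) 1 ∈ 𝓝[<] (1 : ℝ) := Ioo_mem_nhdsLT (by norm_num)
    filter_upwards [h4] with x hx
    have h5 : ‖z * (x : ℂ)‖ < 1 := by
      rw [norm_mul, hn, one_mul, Complex.norm_real, Real.norm_of_nonneg hx.1.le]
      exact hx.2
    have h6 := (Complex.hasSum_taylorSeries_neg_log h5).tsum_eq
    simp only [Function.comp]
    rw [← h6]
    refine tsum_congr fun n => ?_
    rw [mul_pow]
    ring
  have hre : 0 < (1 - z).re := by
    rw [Complex.sub_re, Complex.one_re]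
    have h4 : z.re < 1 := by
      refine lt_of_le_of_ne ((Complex.re_le_norm z).trans hn.le) ?_
      intro h5
      apply hz1
      have h6 := Complex.sq_norm_sub_sq_re z
      rw [hn, h5] at h6
      have h7 : z.im = 0 := by
        have h8 : z.im ^ 2 = 0 := by linarith
        exact pow_eq_zero_iff (by norm_num) |>.1 h8
      exact Complex.ext (by rw [h5, Complex.one_re]) (by rw [h7, Complex.one_im])
    linarith
  have h4 : Tendsto (fun x : ℝ => -Complex.log (1 - z * x)) (𝓝[<] 1) (𝓝 (-Complex.log (1 - z))) := by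
    refine Tendsto.neg ?_
    have h5 : ContinuousAt (fun x : ℝ => Complex.log (1 - z * x)) 1 := by
      refine ContinuousAt.clog (by fun_prop) ?_
      rw [Complex.ofReal_one, mul_one]
      exact Or.inl hre
    have h6 := h5.tendsto
    rw [Complex.ofReal_one, mul_one] at h6
    exact h6.mono_left nhdsWithin_le_nhds
  have h5 : y = -Complex.log (1 - z) := tendsto_nhds_unique h3 h4
  have h6 : y ∈ Zs N 1 := Submodule.subset_span ⟨_, hadm, hy⟩
  rw [h5] at h6
  have h7 := Submodule.neg_mem _ h6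
  rwa [neg_neg] at h7

lemma zeta_mem {N : ℕ} (hN : N ≠ 0) : ((Real.pi ^ 2 / 6 : ℝ) : ℂ) ∈ Zs N 2 := by
  have hadm : Adm N 2 [((2 : ℕ), (1 : ℂ))] := by
    refine ⟨List.cons_ne_nil _ _, fun x hx => ?_, by simp, fun x hx => ?_⟩
    · rw [List.mem_singleton] at hx
      rw [hx]
      exact ⟨by norm_num, one_pow N⟩
    · simp only [List.head?_cons, Option.mem_def, Option.some.injEq] at hx
      rw [← hx]
      intro h
      have h1 := congrArg Prod.fst h
      norm_num at h1
  refine Submodule.subset_span ⟨_, hadm, ?_⟩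
  have h1 := (Complex.continuous_ofReal.tendsto _).comp hasSum_zeta_two.tendsto_sum_nat
  refine h1.congr fun m => ?_
  rw [range_eq _ (by norm_num)]
  simp only [Function.comp]
  push_cast
  refine sum_congr rfl fun j _ => ?_
  rw [tr_nil, one_pow, mul_one]

lemma pow_mem {N : ℕ} (hN : N ≠ 0) {s : ℕ} {y : ℂ} (hy : y ∈ Zs N s) (b : ℕ) (hb : 1 ≤ b) :
    y ^ b ∈ Zs N (s * b) := by
  induction b, hb using Nat.le_induction with
  | base =>
    rw [pow_one, mul_one]
    exact hy
  | succ b _ ih =>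
    rw [pow_succ, Nat.mul_succ]
    exact mul_mem hN ih hy

lemma el_mem {N : ℕ} (hN : N ≠ 0) {s : ℕ} {x y : ℂ} (hx : x ∈ Zs N 1) (hy : y ∈ Zs N s) (w b : ℕ)
    (hw : 1 ≤ w) (hb : s * b ≤ w) : x ^ (w - s * b) * y ^ b ∈ Zs N w := by
  rcases Nat.eq_zero_or_pos b with rfl | hb0
  · rw [pow_zero, mul_one, mul_zero, Nat.sub_zero]
    have h1 := pow_mem hN hx w hw
    rwa [one_mul] at h1
  · rcases Nat.eq_zero_or_pos (w - s * b) with h0 | h0
    · rw [h0, pow_zero, one_mul]
      have h1 : w = s * b := by omega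
      rw [h1]
      exact pow_mem hN hy b hb0
    · have h1 := mul_mem hN (pow_mem hN hx _ h0) (pow_mem hN hy b hb0)
      rw [one_mul, Nat.sub_add_cancel hb] at h1
      exact h1

/-- Gelfond-Schneider -/
lemma transc {x v : ℂ} (hx : IsAlgebraic ℚ (Complex.exp x)) (hv : IsAlgebraic ℚ (Complex.exp v))
    (hind : LinearIndependent ℚ ![x, v]) : v ≠ 0 ∧ Transcendental ℚ (x / v) := by
  have hv0 : v ≠ 0 := hind.ne_zero 1
  refine ⟨hv0, fun halg => ?_⟩
  have h1 := Pool.Agent.H297R2.baker (ι := Fin 2) ![x, v] (by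
      intro i
      fin_cases i
      · exact hx
      · exact hv) hind ![1, -(x / v)] (by
      intro i
      fin_cases i
      · exact isAlgebraic_one
      · exact halg.neg) (by
      rw [Fin.sum_univ_two]
      show 1 * x + -(x / v) * v = 0
      field_simp
      ring) 0
  exact one_ne_zero h1

lemma el_ind {x v : ℂ} (hv : v ≠ 0) (ht : Transcendental ℚ (x / v)) {s : ℕ} (hs : 1 ≤ s) {c : ℚ}
    (hc : c ≠ 0) (w : ℕ) :
    LinearIndependent ℚ (fun b : Fin (w / s + 1) => x ^ (w - s * (b : ℕ)) * ((c : ℂ) * v ^ s) ^ (b : ℕ)) := by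
  rw [Fintype.linearIndependent_iff]
  intro g hg b
  have hle : ∀ b : Fin (w / s + 1), s * (b : ℕ) ≤ w := by
    intro b
    have h1 : (b : ℕ) ≤ w / s := Nat.lt_succ_iff.1 b.2
    calc s * (b : ℕ) ≤ s * (w / s) := Nat.mul_le_mul_left s h1
      _ ≤ w := Nat.mul_div_le w s
  set t : ℂ := x / v with htd
  set P : Polynomial ℚ := ∑ b : Fin (w / s + 1),
    Polynomial.C (g b * c ^ (b : ℕ)) * Polynomial.X ^ (w - s * (b : ℕ)) with hP
  have h1 : v ^ w * Polynomial.aeval t P = 0 := by
    rw [← hg, hP, map_sum, mul_sum]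
    refine sum_congr rfl fun b _ => ?_
    rw [map_mul, Polynomial.aeval_C, map_pow, Polynomial.aeval_X, Rat.smul_def, htd, div_pow]
    have h2 : v ^ w = v ^ (w - s * (b : ℕ)) * v ^ (s * (b : ℕ)) := by
      rw [← pow_add, Nat.sub_add_cancel (hle b)]
    rw [h2, eq_ratCast]
    push_cast
    rw [mul_pow, pow_mul]
    field_simp
  have h2 : Polynomial.aeval t P = 0 := by
    rcases mul_eq_zero.1 h1 with h3 | h3
    · exact absurd h3 (pow_ne_zero _ hv)
    · exact h3
  have h3 : P = 0 := by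
    by_contra hne
    exact ht ⟨P, hne, h2⟩
  have h4 := congrArg (fun Q : Polynomial ℚ => Q.coeff (w - s * (b : ℕ))) h3
  simp only [Polynomial.coeff_zero] at h4
  rw [hP, Polynomial.finsetSum_coeff, sum_eq_single b] at h4
  · rw [Polynomial.coeff_C_mul, Polynomial.coeff_X_pow, if_pos rfl, mul_one] at h4
    rcases mul_eq_zero.1 h4 with h5 | h5
    · exact h5
    · exact absurd h5 (pow_ne_zero _ hc)
  · intro d _ hd
    rw [Polynomial.coeff_C_mul, Polynomial.coeff_X_pow, if_neg, mul_zero]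
    intro h5
    apply hd
    apply Fin.ext
    have h6 := hle b
    have h7 := hle d
    have h8 : s * (b : ℕ) = s * (d : ℕ) := by omega
    exact (Nat.eq_of_mul_eq_mul_left (by omega) h8).symm
  · intro h5
    exact absurd (mem_univ _) h5

lemma lift {α β : Type} (f : α → β) (u : List β) (hu : ∀ x ∈ u, ∃ y, f y = x) :
    ∃ v : List α, v.map f = u := by
  induction u with
  | nil => exact ⟨[], rfl⟩
  | cons x u ih =>
    obtain ⟨v, hv⟩ := ih fun y hy => hu y (List.mem_cons_of_mem _ hy)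
    obtain ⟨y, hy⟩ := hu x List.mem_cons_self
    exact ⟨y :: v, by rw [List.map_cons, hv, hy]⟩

lemma length_le (u : List (ℕ × ℂ)) (hu : ∀ x ∈ u, 1 ≤ x.1) : u.length ≤ (u.map Prod.fst).sum := by
  induction u with
  | nil => exact le_rfl
  | cons x u ih =>
    have h1 := ih fun y hy => hu y (List.mem_cons_of_mem _ hy)
    have h2 := hu x List.mem_cons_self
    rw [List.length_cons, List.map_cons, List.sum_cons]
    omega

lemma adm_finite {N : ℕ} (hN : N ≠ 0) (w : ℕ) : {u | Adm N w u}.Finite := by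
  classical
  have hfin : {z : ℂ | z ^ N = 1}.Finite := by
    refine (Polynomial.nthRoots N (1 : ℂ)).toFinset.finite_toSet.subset fun z hz => ?_
    rw [mem_coe, Multiset.mem_toFinset, Polynomial.mem_nthRoots (Nat.pos_of_ne_zero hN)]
    exact hz
  have := hfin.to_subtype
  set f : Fin (w + 1) × {z : ℂ | z ^ N = 1} → ℕ × ℂ := fun y => ((y.1 : ℕ), y.2.1) with hf
  refine ((List.finite_length_le (Fin (w + 1) × {z : ℂ | z ^ N = 1}) w).image (List.map f)).subset ?_
  intro u hu
  have hlen := length_le u (fun x hx => (hu.2.1 x hx).1)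
  rw [hu.2.2.1] at hlen
  obtain ⟨v, hv⟩ := lift f u (fun x hx => by
    have h1 := hu.2.1 x hx
    have h2 : x.1 ≤ w := by
      rw [← hu.2.2.1]
      exact List.single_le_sum (fun _ _ => Nat.zero_le _) _ (List.mem_map_of_mem hx)
    exact ⟨(⟨x.1, by omega⟩, ⟨x.2, h1.2⟩), rfl⟩)
  refine ⟨v, ?_, hv⟩
  show v.length ≤ w
  rw [← hv, List.length_map] at hlen
  exact hlen

lemma Zs_finite {N : ℕ} (hN : N ≠ 0) (w : ℕ) : Module.Finite ℚ (Zs N w) := by
  refine Module.Finite.span_of_finite ℚ ?_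
  have h1 : {x | ∃ u, Adm N w u ∧ Tendsto (tr u) atTop (𝓝 x)} =
      ⋃ u ∈ {u | Adm N w u}, {x | Tendsto (tr u) atTop (𝓝 x)} := by
    ext x
    simp
  rw [h1]
  refine (adm_finite hN w).biUnion fun u _ => Set.Subsingleton.finite fun x hx y hy => ?_
  exact tendsto_nhds_unique hx hy

/-- the lower bound from two logarithms -/
lemma bound {N : ℕ} (hN : N ≠ 0) {x v : ℂ} (hx : IsAlgebraic ℚ (Complex.exp x))
    (hv : IsAlgebraic ℚ (Complex.exp v)) (hind : LinearIndependent ℚ ![x, v]) {s : ℕ} (hs : 1 ≤ s)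
    {c : ℚ} (hc : c ≠ 0) (hxm : x ∈ Zs N 1) (hvm : (c : ℂ) * v ^ s ∈ Zs N s) (w : ℕ) (hw : 1 ≤ w) :
    w / s + 1 ≤ Module.finrank ℚ (Zs N w) := by
  have := Zs_finite hN w
  obtain ⟨hv0, ht⟩ := transc hx hv hind
  have h1 : LinearIndependent ℚ (fun b : Fin (w / s + 1) =>
      (⟨x ^ (w - s * (b : ℕ)) * ((c : ℂ) * v ^ s) ^ (b : ℕ), el_mem hN hxm hvm w b hw (by
        have h1 : (b : ℕ) ≤ w / s := Nat.lt_succ_iff.1 b.2
        calc s * (b : ℕ) ≤ s * (w / s) := Nat.mul_le_mul_left s h1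
          _ ≤ w := Nat.mul_div_le w s)⟩ : Zs N w)) := by
    refine LinearIndependent.of_comp (Zs N w).subtype ?_
    exact el_ind hv0 ht hs hc w
  have h2 := h1.fintype_card_le_finrank
  rwa [Fintype.card_fin] at h2

/-- alternating multiple zeta values -/
theorem main2 (w : ℕ) (hw : 1 ≤ w) : w / 2 + 1 ≤ Module.finrank ℚ (Zs 2 w) := by
  have e1 : Complex.log (1 - (-1)) = ((Real.log 2 : ℝ) : ℂ) := by
    rw [sub_neg_eq_add, one_add_one_eq_two, Complex.ofReal_log (by norm_num), Complex.ofReal_ofNat]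
  refine bound (N := 2) (by norm_num) (x := Complex.log (1 - (-1)))
    (v := ((Real.pi : ℝ) : ℂ) * Complex.I) ?_ ?_ ?_ (s := 2) (by norm_num) (c := -1 / 6) (by norm_num)
    (li_mem (by norm_num) (by norm_num) (by norm_num)) ?_ w hw
  · rw [sub_neg_eq_add, one_add_one_eq_two, Complex.exp_log (by norm_num)]
    exact_mod_cast isAlgebraic_natCast (R := ℚ) (A := ℂ) 2
  · rw [Complex.exp_pi_mul_I]
    exact isAlgebraic_one.neg
  · rw [e1, LinearIndependent.pair_iff]
    intro s t hst
    rw [Rat.smul_def, Rat.smul_def] at hst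
    have h2 : (⟨(s : ℝ) * Real.log 2, (t : ℝ) * Real.pi⟩ : ℂ) = 0 := by
      rw [← hst, Complex.mk_eq_add_mul_I]
      push_cast
      ring
    have h3 : (s : ℝ) * Real.log 2 = 0 := congrArg Complex.re h2
    have h4 : (t : ℝ) * Real.pi = 0 := congrArg Complex.im h2
    refine ⟨?_, ?_⟩
    · rcases mul_eq_zero.1 h3 with h5 | h5
      · exact_mod_cast h5
      · exact absurd h5 (Real.log_pos (by norm_num)).ne'
    · rcases mul_eq_zero.1 h4 with h5 | h5
      · exact_mod_cast h5
      · exact absurd h5 Real.pi_ne_zero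
  · have h1 := zeta_mem (N := 2) (by norm_num)
    convert h1 using 1
    rw [mul_pow, Complex.I_sq]
    push_cast
    ring

/-- roots of unity of order at least three -/
theorem main3 (N w : ℕ) (hN : 3 ≤ N) (hw : 1 ≤ w) : w + 1 ≤ Module.finrank ℚ (Zs N w) := by
  have hN0 : N ≠ 0 := by omega
  obtain ⟨z, hz, hz1, hz2, hz3⟩ : ∃ z : ℂ, z ^ N = 1 ∧ z ≠ 1 ∧ z.im ≠ 0 ∧ ‖1 - z‖ ≠ 1 := by
    obtain ⟨z, hz⟩ : ∃ z : ℂ, IsPrimitiveRoot z N := ⟨_, Complex.isPrimitiveRoot_exp N hN0⟩
    have hn : ‖z‖ = 1 := Complex.norm_eq_one_of_pow_eq_one hz.pow_eq_one hN0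
    have hsq : z ^ 2 ≠ 1 := hz.pow_ne_one_of_pos_of_lt (by norm_num) (by omega)
    have hns : z.re ^ 2 + z.im ^ 2 = 1 := by
      have h1 := Complex.sq_norm_sub_sq_re z
      rw [hn] at h1
      linarith
    have him : z.im ≠ 0 := by
      intro h0
      apply hsq
      have h1 : z = ((z.re : ℝ) : ℂ) := Complex.ext (by simp) (by simp [h0])
      rw [h0] at hns
      have h2 : z.re ^ 2 = 1 := by linarith
      rw [h1, ← Complex.ofReal_pow, h2, Complex.ofReal_one]
    have hnorm : ∀ y : ℂ, ‖1 - y‖ = 1 → (1 - y.re) ^ 2 + y.im ^ 2 = 1 := by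
      intro y hy
      have h1 := Complex.sq_norm_sub_sq_re (1 - y)
      rw [hy, Complex.sub_re, Complex.sub_im, Complex.one_re, Complex.one_im] at h1
      linarith
    by_cases h1 : ‖1 - z‖ = 1
    · -- `z` is a primitive sixth root of unity, take its square
      have h2 := hnorm z h1
      have hre : z.re = 1 / 2 := by linarith
      have hre2 : (z ^ 2).re = -(1 / 2) := by
        rw [sq, Complex.mul_re, hre]
        rw [hre] at hns
        linarith
      have him2 : (z ^ 2).im = z.im := by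
        rw [sq, Complex.mul_im, hre]
        ring
      refine ⟨z ^ 2, ?_, hsq, by rw [him2]; exact him, fun h3 => ?_⟩
      · rw [← pow_mul, mul_comm, pow_mul, hz.pow_eq_one, one_pow]
      · have h4 := hnorm _ h3
        rw [hre2, him2] at h4
        rw [hre] at hns
        linarith
    · exact ⟨z, hz.pow_eq_one, fun h2 => hsq (by rw [h2, one_pow]), him, h1⟩
  have hzc : (starRingEnd ℂ) z ^ N = 1 := by rw [← map_pow, hz, map_one]
  have hzc1 : (starRingEnd ℂ) z ≠ 1 := by
    intro h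
    apply hz1
    rw [← Complex.conj_conj z, h, map_one]
  have halg : IsAlgebraic ℚ z := IsAlgebraic.of_pow (Nat.pos_of_ne_zero hN0) (by rw [hz]; exact isAlgebraic_one)
  have halgc : IsAlgebraic ℚ ((starRingEnd ℂ) z) :=
    IsAlgebraic.of_pow (Nat.pos_of_ne_zero hN0) (by rw [hzc]; exact isAlgebraic_one)
  have h10 : 1 - z ≠ 0 := sub_ne_zero.2 (Ne.symm hz1)
  have h10c : 1 - (starRingEnd ℂ) z ≠ 0 := sub_ne_zero.2 (Ne.symm hzc1)
  have himne : (1 - z).im ≠ 0 := by
    rw [Complex.sub_im, Complex.one_im, zero_sub, neg_ne_zero]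
    exact hz2
  have harg : (1 - z).arg ≠ Real.pi := by
    intro h
    exact himne (Complex.arg_eq_pi_iff.1 h).2
  have hconj : Complex.log (1 - (starRingEnd ℂ) z) = (starRingEnd ℂ) (Complex.log (1 - z)) := by
    rw [← Complex.log_conj _ harg, map_sub, map_one]
  have hlre : (Complex.log (1 - z)).re ≠ 0 := by
    rw [Complex.log_re]
    intro h
    have hpos : 0 < ‖1 - z‖ := norm_pos_iff.2 h10
    exact hz3 (Real.eq_one_of_pos_of_log_eq_zero hpos h)
  have hlim : (Complex.log (1 - z)).im ≠ 0 := by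
    rw [Complex.log_im]
    intro h
    exact himne (Complex.arg_eq_zero_iff.1 h).2
  have h := bound (N := N) hN0 (x := Complex.log (1 - z)) (v := Complex.log (1 - (starRingEnd ℂ) z))
    (by
      rw [Complex.exp_log h10]
      exact isAlgebraic_one.sub halg) (by
      rw [Complex.exp_log h10c]
      exact isAlgebraic_one.sub halgc) (by
      rw [hconj, LinearIndependent.pair_iff]
      intro s t hst
      rw [Rat.smul_def, Rat.smul_def] at hst
      have h3 := congrArg Complex.re hst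
      have h4 := congrArg Complex.im hst
      rw [← Complex.ofReal_ratCast, ← Complex.ofReal_ratCast, Complex.add_re, Complex.re_ofReal_mul,
        Complex.re_ofReal_mul, Complex.conj_re, Complex.zero_re, ← add_mul] at h3
      rw [← Complex.ofReal_ratCast, ← Complex.ofReal_ratCast, Complex.add_im, Complex.im_ofReal_mul,
        Complex.im_ofReal_mul, Complex.conj_im, Complex.zero_im, mul_neg, ← sub_eq_add_neg,
        ← sub_mul] at h4
      have h5 : (s : ℝ) + t = 0 := by
        rcases mul_eq_zero.1 h3 with h5 | h5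
        · exact h5
        · exact absurd h5 hlre
      have h6 : (s : ℝ) - t = 0 := by
        rcases mul_eq_zero.1 h4 with h5 | h5
        · exact h5
        · exact absurd h5 hlim
      have h7 : (s : ℝ) = 0 := by linarith
      have h8 : (t : ℝ) = 0 := by linarith
      exact ⟨by exact_mod_cast h7, by exact_mod_cast h8⟩) (s := 1) le_rfl (c := 1) one_ne_zero
    (li_mem hN0 hz hz1) (by
      rw [Rat.cast_one, one_mul, pow_one]
      exact li_mem hN0 hzc hzc1) w hw
  rwa [Nat.div_one] at h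

end Pool.Agent.K1H90.AL
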