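import Pool.Agent.K1H90.AL.Sup

/-!
# The weight one space for the sixth roots of unity has dimension at least three
-/

set_option autoImplicit false

namespace Pool.Agent.K1H90.AL

open Module Submodule Filter Topology

lemma log23 (a b : ℚ) (h : (a : ℝ) * Real.log 2 + b * Real.log 3 = 0) : a = 0 ∧ b = 0 := by
  have l2 : 0 < Real.log 2 := Real.log_pos (by norm_num)
  have l3 : 0 < Real.log 3 := Real.log_pos (by norm_num)
  have hb : b = 0 := by
    by_contra hb
    have hb' : (b : ℝ) ≠ 0 := by exact_mod_cast hb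
    set r : ℚ := -a / b with hr
    have h1 : Real.log 3 = (r : ℝ) * Real.log 2 := by
      rw [hr]
      push_cast
      field_simp
      linear_combination h
    have hr0 : 0 < r := by
      by_contra hcon
      have h2 : (r : ℝ) ≤ 0 := by exact_mod_cast not_lt.1 hcon
      have h3 : (r : ℝ) * Real.log 2 ≤ 0 := mul_nonpos_of_nonpos_of_nonneg h2 l2.le
      linarith
    have hnum : ((r.num.toNat : ℕ) : ℤ) = r.num := Int.toNat_of_nonneg (Rat.num_pos.2 hr0).le
    have h2 : (r.den : ℝ) * Real.log 3 = (r.num.toNat : ℝ) * Real.log 2 := by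
      have h3 : (r.den : ℝ) * (r : ℝ) = (r.num.toNat : ℝ) := by
        have h4 : (r.den : ℚ) * r = r.num := by rw [mul_comm]; exact Rat.mul_den_eq_num r
        have h5 : (r.den : ℝ) * (r : ℝ) = ((r.num : ℤ) : ℝ) := by exact_mod_cast congrArg (fun q : ℚ => (q : ℝ)) h4
        rw [h5, ← hnum]
        norm_cast
      rw [h1, ← mul_assoc, h3]
    rw [← Real.log_pow, ← Real.log_pow] at h2
    have h3 : (3 : ℝ) ^ r.den = 2 ^ r.num.toNat :=
      Real.log_injOn_pos (Set.mem_Ioi.2 (by positivity)) (Set.mem_Ioi.2 (by positivity)) h2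
    have h4 : 3 ^ r.den = 2 ^ r.num.toNat := by exact_mod_cast h3
    have h5 : r.num.toNat ≠ 0 := by
      intro h0
      rw [h0] at hnum
      have := Rat.num_pos.2 hr0
      simp at hnum
      omega
    have h6 : Even (3 ^ r.den) := by
      rw [h4]
      exact (Nat.even_pow.2 ⟨even_two, h5⟩)
    have h7 : Odd (3 ^ r.den) := Odd.pow (by decide)
    exact (Nat.not_even_iff_odd.2 h7) h6
  refine ⟨?_, hb⟩
  rw [hb] at h
  have h1 : (a : ℝ) * Real.log 2 = 0 := by simpa using h
  exact_mod_cast (mul_eq_zero.1 h1).resolve_right l2.ne'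

theorem six : 3 ≤ finrank ℚ (Zs 6 1) := by
  haveI := Zs_finite (N := 6) (by norm_num) 1
  have hs : (Real.sqrt 3) ^ 2 = 3 := Real.sq_sqrt (by norm_num)
  have hs0 : 0 < Real.sqrt 3 := Real.sqrt_pos.2 (by norm_num)
  set z : ℂ := ⟨-1 / 2, Real.sqrt 3 / 2⟩ with hz
  have hz2 : z ^ 2 = ⟨-1 / 2, -(Real.sqrt 3 / 2)⟩ := by
    rw [hz, pow_two]
    apply Complex.ext
    · simp only [Complex.mul_re]
      nlinarith [hs]
    · simp only [Complex.mul_im]
      ring
  have hz3 : z ^ 3 = 1 := by
    rw [pow_succ, hz2, hz]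
    apply Complex.ext
    · simp only [Complex.mul_re, Complex.one_re]
      nlinarith [hs]
    · simp only [Complex.mul_im, Complex.one_im]
      ring
  have hz6 : z ^ 6 = 1 := by rw [show 6 = 3 * 2 by norm_num, pow_mul, hz3, one_pow]
  have hzne : z ≠ 1 := by
    intro h
    have := congrArg Complex.re h
    rw [hz, Complex.one_re] at this
    norm_num at this
  set z' : ℂ := z ^ 2 with hz'
  have hz'6 : z' ^ 6 = 1 := by rw [hz', ← pow_mul, mul_comm, pow_mul, hz6, one_pow]
  have hz'ne : z' ≠ 1 := by
    intro h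
    have := congrArg Complex.re h
    rw [hz2, Complex.one_re] at this
    norm_num at this
  have hconj : 1 - z' = (starRingEnd ℂ) (1 - z) := by
    rw [hz2, hz]
    apply Complex.ext
    · simp
    · simp
  have hnorm : ‖1 - z‖ ^ 2 = 3 := by
    rw [← Complex.normSq_eq_norm_sq, Complex.normSq_apply, hz]
    simp only [Complex.sub_re, Complex.sub_im, Complex.one_re, Complex.one_im]
    nlinarith [hs]
  have hre : (1 - z).re = 3 / 2 := by
    rw [hz]; simp only [Complex.sub_re, Complex.one_re]; norm_num
  have him : (1 - z).im = -(Real.sqrt 3 / 2) := by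
    rw [hz]; simp only [Complex.sub_im, Complex.one_im]; ring
  have harg : Complex.arg (1 - z) ≠ Real.pi := by
    intro h
    have := Complex.arg_eq_pi_iff.1 h
    rw [hre] at this
    linarith [this.1]
  have harg0 : Complex.arg (1 - z) ≠ 0 := by
    intro h
    have := (Complex.arg_eq_zero_iff.1 h).2
    rw [him] at this
    linarith
  have hlog : Complex.log (1 - z') = (starRingEnd ℂ) (Complex.log (1 - z)) := by
    rw [hconj, Complex.log_conj _ harg]
  have hL : Real.log ‖1 - z‖ = Real.log 3 / 2 := by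
    rw [← hnorm, Real.log_pow]
    push_cast
    ring
  have e2 : Complex.log (1 - (-1)) = ((Real.log 2 : ℝ) : ℂ) := by
    rw [sub_neg_eq_add, one_add_one_eq_two, Complex.ofReal_log (by norm_num), Complex.ofReal_ofNat]
  have m1 : Complex.log (1 - (-1)) ∈ Zs 6 1 := li_mem (by norm_num) (by norm_num) (by norm_num)
  have m2 : Complex.log (1 - z) ∈ Zs 6 1 := li_mem (by norm_num) hz6 hzne
  have m3 : Complex.log (1 - z') ∈ Zs 6 1 := li_mem (by norm_num) hz'6 hz'ne
  have hli : LinearIndependent ℚ (![⟨_, m1⟩, ⟨_, m2⟩, ⟨_, m3⟩] : Fin 3 → Zs 6 1) := by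
    rw [Fintype.linearIndependent_iff]
    intro g hg
    have h1 := congrArg Subtype.val hg
    rw [Fin.sum_univ_three] at h1
    simp only [Matrix.cons_val_zero, Matrix.cons_val_one, Matrix.cons_val, Submodule.coe_add,
      Submodule.coe_smul, Submodule.coe_zero] at h1
    rw [e2, hlog, Rat.smul_def, Rat.smul_def, Rat.smul_def] at h1
    have hr := congrArg Complex.re h1
    have hi := congrArg Complex.im h1
    simp only [Complex.add_re, Complex.mul_re, Complex.ratCast_re, Complex.ratCast_im,
      Complex.ofReal_re, Complex.ofReal_im, Complex.conj_re, Complex.log_re, Complex.zero_re,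
      zero_mul, sub_zero] at hr
    simp only [Complex.add_im, Complex.mul_im, Complex.ratCast_re, Complex.ratCast_im,
      Complex.ofReal_re, Complex.ofReal_im, Complex.conj_im, Complex.log_im, Complex.zero_im,
      zero_mul, mul_zero, add_zero, zero_add] at hi
    have h2 : ((g 1 - g 2 : ℚ) : ℝ) * Complex.arg (1 - z) = 0 := by
      push_cast
      linear_combination hi
    have h3 : g 1 = g 2 := by
      have h4 := (mul_eq_zero.1 h2).resolve_right harg0
      have h5 : g 1 - g 2 = 0 := by exact_mod_cast h4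
      exact sub_eq_zero.1 h5
    rw [hL, ← h3] at hr
    have h4 := log23 (g 0) (g 1) (by linear_combination hr)
    intro i
    fin_cases i
    · exact h4.1
    · exact h4.2
    · exact h3.symm.trans h4.2
  have h := hli.fintype_card_le_finrank
  rwa [Fintype.card_fin] at h

end Pool.Agent.K1H90.AL
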