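import Mathlib

/-!
# The stuffle product of truncated multiple polylogarithms
-/

set_option autoImplicit false

namespace Pool.Agent.K1H90.AL

open Finset Filter Topology

/-- the truncated sums -/
noncomputable def tr : List (ℕ × ℂ) → ℕ → ℂ
  | [], _ => 1
  | x :: l, m => ∑ j ∈ Ico 1 m, x.2 ^ j / (j : ℂ) ^ x.1 * tr l j

lemma tr_nil (m : ℕ) : tr [] m = 1 := by rw [tr]

lemma tr_cons (x : ℕ × ℂ) (l : List (ℕ × ℂ)) (m : ℕ) :
    tr (x :: l) m = ∑ j ∈ Ico 1 m, x.2 ^ j / (j : ℂ) ^ x.1 * tr l j := by rw [tr]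

/-- the product of two letters -/
def lm (x y : ℕ × ℂ) : ℕ × ℂ := (x.1 + y.1, x.2 * y.2)

/-- the stuffle product -/
def st : List (ℕ × ℂ) → List (ℕ × ℂ) → List (List (ℕ × ℂ))
  | [], l => [l]
  | x :: k, [] => [x :: k]
  | x :: k, y :: l => (st k (y :: l)).map (x :: ·) ++ (st (x :: k) l).map (y :: ·) ++
      (st k l).map (lm x y :: ·)
termination_by k l => k.length + l.length

lemma list_swap {α : Type*} (L : List α) (s : Finset ℕ) (F : α → ℕ → ℂ) :
    (L.map fun a => ∑ j ∈ s, F a j).sum = ∑ j ∈ s, (L.map fun a => F a j).sum := by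
  induction L with
  | nil => simp
  | cons a L ih =>
    simp only [List.map_cons, List.sum_cons]
    rw [ih, sum_add_distrib]

lemma list_mul {α : Type*} (L : List α) (F : α → ℂ) (c : ℂ) :
    (L.map fun a => c * F a).sum = c * (L.map F).sum := by
  induction L with
  | nil => simp
  | cons a L ih =>
    simp only [List.map_cons, List.sum_cons]
    rw [ih, mul_add]

lemma prod_Ico (f g : ℕ → ℂ) (m : ℕ) :
    (∑ i ∈ Ico 1 m, f i) * (∑ j ∈ Ico 1 m, g j) =
      ∑ i ∈ Ico 1 m, f i * (∑ j ∈ Ico 1 i, g j) +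
      ∑ j ∈ Ico 1 m, g j * (∑ i ∈ Ico 1 j, f i) +
      ∑ i ∈ Ico 1 m, f i * g i := by
  induction m with
  | zero => simp
  | succ m ih =>
    rcases Nat.eq_zero_or_pos m with rfl | hm
    · simp
    · simp only [sum_Ico_succ_top hm]
      linear_combination ih

lemma tr_map (x : ℕ × ℂ) (L : List (List (ℕ × ℂ))) (m : ℕ) :
    ((L.map (x :: ·)).map fun w => tr w m).sum =
      ∑ j ∈ Ico 1 m, x.2 ^ j / (j : ℂ) ^ x.1 * (L.map fun w => tr w j).sum := by
  rw [List.map_map]
  have h1 : ((fun w => tr w m) ∘ (x :: ·)) = fun w =>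
      ∑ j ∈ Ico 1 m, x.2 ^ j / (j : ℂ) ^ x.1 * tr w j := by
    funext w
    simp only [Function.comp]
    rw [tr_cons]
  rw [h1, list_swap]
  exact sum_congr rfl fun j _ => list_mul _ _ _

lemma tr_mul (u v : List (ℕ × ℂ)) : ∀ m, tr u m * tr v m = ((st u v).map fun w => tr w m).sum := by
  induction u, v using st.induct with
  | case1 v =>
    intro m
    rw [st, tr_nil, one_mul]
    simp
  | case2 x k =>
    intro m
    rw [st, tr_nil, mul_one]
    simp
  | case3 x k y l ih1 ih2 ih3 =>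
    intro m
    rw [st, List.map_append, List.map_append, List.sum_append, List.sum_append, tr_map, tr_map,
      tr_map]
    rw [tr_cons, tr_cons, prod_Ico]
    refine congrArg₂ _ (congrArg₂ _ ?_ ?_) ?_
    · refine sum_congr rfl fun t _ => ?_
      rw [← ih1, tr_cons]
      ring
    · refine sum_congr rfl fun t _ => ?_
      rw [← ih2, tr_cons]
      ring
    · refine sum_congr rfl fun t _ => ?_
      rw [← ih3]
      unfold lm
      simp only
      rw [mul_pow, pow_add]
      ring

/-- admissible words -/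
def Adm (N w : ℕ) (u : List (ℕ × ℂ)) : Prop :=
  u ≠ [] ∧ (∀ x ∈ u, 1 ≤ x.1 ∧ x.2 ^ N = 1) ∧ (u.map Prod.fst).sum = w ∧
    ∀ x ∈ u.head?, x ≠ (1, 1)

lemma st_letters (N : ℕ) (u v : List (ℕ × ℂ)) : (∀ x ∈ u, 1 ≤ x.1 ∧ x.2 ^ N = 1) →
    (∀ x ∈ v, 1 ≤ x.1 ∧ x.2 ^ N = 1) → ∀ w ∈ st u v, (∀ x ∈ w, 1 ≤ x.1 ∧ x.2 ^ N = 1) ∧
      (w.map Prod.fst).sum = (u.map Prod.fst).sum + (v.map Prod.fst).sum := by
  induction u, v using st.induct with
  | case1 v =>
    intro _ hv w hw
    rw [st, List.mem_singleton] at hw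
    rw [hw]
    exact ⟨hv, by simp⟩
  | case2 x k =>
    intro hu _ w hw
    rw [st, List.mem_singleton] at hw
    rw [hw]
    exact ⟨hu, by simp⟩
  | case3 x k y l ih1 ih2 ih3 =>
    intro hu hv w hw
    have hx := hu x List.mem_cons_self
    have hy := hv y List.mem_cons_self
    have hu' : ∀ m ∈ k, 1 ≤ m.1 ∧ m.2 ^ N = 1 := fun m hm => hu m (List.mem_cons_of_mem _ hm)
    have hv' : ∀ m ∈ l, 1 ≤ m.1 ∧ m.2 ^ N = 1 := fun m hm => hv m (List.mem_cons_of_mem _ hm)
    rw [st, List.mem_append, List.mem_append, List.mem_map, List.mem_map, List.mem_map] at hw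
    rcases hw with (⟨w', hw', rfl⟩ | ⟨w', hw', rfl⟩) | ⟨w', hw', rfl⟩
    · obtain ⟨h1, h2⟩ := ih1 hu' hv w' hw'
      refine ⟨fun m hm => ?_, ?_⟩
      · rcases List.mem_cons.1 hm with rfl | hm
        · exact hx
        · exact h1 m hm
      · simp only [List.map_cons, List.sum_cons] at h2 ⊢
        omega
    · obtain ⟨h1, h2⟩ := ih2 hu hv' w' hw'
      refine ⟨fun m hm => ?_, ?_⟩
      · rcases List.mem_cons.1 hm with rfl | hm
        · exact hy
        · exact h1 m hm
      · simp only [List.map_cons, List.sum_cons] at h2 ⊢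
        omega
    · obtain ⟨h1, h2⟩ := ih3 hu' hv' w' hw'
      refine ⟨fun m hm => ?_, ?_⟩
      · rcases List.mem_cons.1 hm with rfl | hm
        · refine ⟨?_, ?_⟩
          · show 1 ≤ x.1 + y.1
            omega
          · show (x.2 * y.2) ^ N = 1
            rw [mul_pow, hx.2, hy.2, one_mul]
        · exact h1 m hm
      · simp only [List.map_cons, List.sum_cons, lm] at h2 ⊢
        omega

lemma st_adm {N a b : ℕ} {u v : List (ℕ × ℂ)} (hu : Adm N a u) (hv : Adm N b v) :
    ∀ w ∈ st u v, Adm N (a + b) w := by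
  intro w hw
  obtain ⟨h1, h2⟩ := st_letters N u v hu.2.1 hv.2.1 w hw
  have hu3 := hu.2.2.1
  have hv3 := hv.2.2.1
  have hh : w ≠ [] ∧ ∀ x ∈ w.head?, x ≠ (1, 1) := by
    cases u with
    | nil => exact absurd rfl hu.1
    | cons x k =>
      cases v with
      | nil => exact absurd rfl hv.1
      | cons y l =>
        have hx : x ≠ (1, 1) := hu.2.2.2 x (by simp)
        have hy : y ≠ (1, 1) := hv.2.2.2 y (by simp)
        have hx1 := hu.2.1 x List.mem_cons_self
        have hy1 := hv.2.1 y List.mem_cons_self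
        rw [st, List.mem_append, List.mem_append, List.mem_map, List.mem_map, List.mem_map] at hw
        rcases hw with (⟨w', _, rfl⟩ | ⟨w', _, rfl⟩) | ⟨w', _, rfl⟩
        · refine ⟨List.cons_ne_nil _ _, fun z hz => ?_⟩
          simp only [List.head?_cons, Option.mem_def, Option.some.injEq] at hz
          rw [← hz]
          exact hx
        · refine ⟨List.cons_ne_nil _ _, fun z hz => ?_⟩
          simp only [List.head?_cons, Option.mem_def, Option.some.injEq] at hz
          rw [← hz]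
          exact hy
        · refine ⟨List.cons_ne_nil _ _, fun z hz => ?_⟩
          simp only [List.head?_cons, Option.mem_def, Option.some.injEq] at hz
          rw [← hz]
          intro h3
          have h4 := congrArg Prod.fst h3
          simp only [lm] at h4
          omega
  exact ⟨hh.1, h1, by rw [h2, hu3, hv3], hh.2⟩

end Pool.Agent.K1H90.AL
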