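import Pool.Agent.K1H90.AL.Fin
import Pool.Agent.K1H90.AL.Cd

/-!
# The dimensions over the algebraic numbers are superadditive up to one
-/

set_option autoImplicit false

namespace Pool.Agent.K1H90.AL

open Module Submodule Filter Topology

/-- the span over the algebraic numbers -/
noncomputable def Pq (N w : ℕ) : Submodule (algebraicClosure ℚ ℂ) ℂ :=
  Submodule.span (algebraicClosure ℚ ℂ) (Zs N w : Set ℂ)

lemma Pq_basis {N : ℕ} (hN : N ≠ 0) (w : ℕ) :
    Pq N w ≤ Submodule.span (algebraicClosure ℚ ℂ)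
      (Set.range fun i : Fin (finrank ℚ (Zs N w)) =>
        (haveI := Zs_finite hN w; ((finBasis ℚ (Zs N w)) i : ℂ))) := by
  haveI := Zs_finite hN w
  refine Submodule.span_le.2 fun x hx => ?_
  have h1 := (finBasis ℚ (Zs N w)).sum_repr ⟨x, hx⟩
  suffices h : (((∑ i, (finBasis ℚ (Zs N w)).repr ⟨x, hx⟩ i • finBasis ℚ (Zs N w) i :
      Zs N w)) : ℂ) ∈ Submodule.span (algebraicClosure ℚ ℂ)
      (Set.range fun i : Fin (finrank ℚ (Zs N w)) => ((finBasis ℚ (Zs N w) i : Zs N w) : ℂ)) by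
    rw [h1] at h
    exact h
  rw [Submodule.coe_sum]
  refine Submodule.sum_mem _ fun i _ => ?_
  rw [Submodule.coe_smul]
  have h3 : ((finBasis ℚ (Zs N w)).repr ⟨x, hx⟩ i) • ((finBasis ℚ (Zs N w) i : Zs N w) : ℂ) =
      (algebraMap ℚ (algebraicClosure ℚ ℂ) ((finBasis ℚ (Zs N w)).repr ⟨x, hx⟩ i)) •
        ((finBasis ℚ (Zs N w) i : Zs N w) : ℂ) := by
    rw [algebraMap_smul]
  rw [h3]
  exact Submodule.smul_mem _ _ (Submodule.subset_span ⟨i, rfl⟩)

lemma Pq_finite {N : ℕ} (hN : N ≠ 0) (w : ℕ) :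
    FiniteDimensional (algebraicClosure ℚ ℂ) (Pq N w) := by
  haveI : FiniteDimensional (algebraicClosure ℚ ℂ) (Submodule.span (algebraicClosure ℚ ℂ)
      (Set.range fun i : Fin (finrank ℚ (Zs N w)) =>
        (haveI := Zs_finite hN w; ((finBasis ℚ (Zs N w)) i : ℂ)))) :=
    FiniteDimensional.span_of_finite _ (Set.finite_range _)
  exact Submodule.finiteDimensional_of_le (Pq_basis hN w)

lemma Pq_le {N : ℕ} (hN : N ≠ 0) (w : ℕ) :
    finrank (algebraicClosure ℚ ℂ) (Pq N w) ≤ finrank ℚ (Zs N w) := by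
  haveI : FiniteDimensional (algebraicClosure ℚ ℂ) (Submodule.span (algebraicClosure ℚ ℂ)
      (Set.range fun i : Fin (finrank ℚ (Zs N w)) =>
        (haveI := Zs_finite hN w; ((finBasis ℚ (Zs N w)) i : ℂ)))) :=
    FiniteDimensional.span_of_finite _ (Set.finite_range _)
  refine (Submodule.finrank_mono (Pq_basis hN w)).trans ?_
  refine (finrank_range_le_card _).trans ?_
  rw [Fintype.card_fin]

lemma Pq_ne {N : ℕ} (hN : 2 ≤ N) {w : ℕ} (hw : 1 ≤ w) : Pq N w ≠ ⊥ := by
  intro h
  have h1 : 1 ≤ finrank ℚ (Zs N w) := by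
    rcases hN.eq_or_lt with rfl | h3
    · exact le_trans (by omega) (main2 w hw)
    · exact le_trans (by omega) (main3 N w h3 hw)
  have h2 : Zs N w = ⊥ := by
    rw [Submodule.eq_bot_iff]
    intro x hx
    have h3 : x ∈ Pq N w := Submodule.subset_span hx
    rw [h] at h3
    exact (Submodule.mem_bot _).1 h3
  rw [h2, finrank_bot] at h1
  omega

lemma Pq_mul {N : ℕ} (hN : N ≠ 0) (a b : ℕ) : Pq N a * Pq N b ≤ Pq N (a + b) := by
  rw [Pq, Pq, Submodule.span_mul_span, Submodule.span_le]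
  rintro _ ⟨x, hx, y, hy, rfl⟩
  exact Submodule.subset_span (mul_mem hN hx hy)

/-- superadditivity -/
theorem superadd {N : ℕ} (hN : 2 ≤ N) {a b : ℕ} (ha : 1 ≤ a) (hb : 1 ≤ b) :
    finrank (algebraicClosure ℚ ℂ) (Pq N a) + finrank (algebraicClosure ℚ ℂ) (Pq N b) ≤
      finrank (algebraicClosure ℚ ℂ) (Pq N (a + b)) + 1 := by
  have hN0 : N ≠ 0 := by omega
  haveI : IsAlgClosed (algebraicClosure ℚ ℂ) :=
    (algebraicClosure.isAlgClosure ℚ ℂ).isAlgClosed
  have h1 := lcd (finrank (algebraicClosure ℚ ℂ) (Pq N b)) (Pq N a) (Pq N b) (Pq_finite hN0 a)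
    (Pq_finite hN0 b) (Pq_ne hN ha) (Pq_ne hN hb) le_rfl
  haveI := Pq_finite hN0 (a + b)
  have h2 := Submodule.finrank_mono (Pq_mul hN0 a b)
  omega

/-- the numbers with algebraic exponential -/
def lg : Submodule ℚ ℂ where
  carrier := {z | IsAlgebraic ℚ (Complex.exp z)}
  zero_mem' := by
    change IsAlgebraic ℚ (Complex.exp 0)
    rw [Complex.exp_zero]
    exact isAlgebraic_one
  add_mem' := by
    intro x y hx hy
    change IsAlgebraic ℚ (Complex.exp (x + y))
    rw [Complex.exp_add]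
    exact IsAlgebraic.mul hx hy
  smul_mem' := by
    intro q x hx
    change IsAlgebraic ℚ (Complex.exp (q • x))
    have hd : 0 < q.den := q.den_pos
    refine IsAlgebraic.of_pow hd ?_
    rw [← Complex.exp_nat_mul]
    have h1 : (q.den : ℂ) * (q • x) = (q.num : ℂ) * x := by
      rw [Rat.smul_def, ← mul_assoc]
      congr 1
      have h2 : (q.den : ℚ) * q = q.num := by
        rw [mul_comm]; exact Rat.mul_den_eq_num q
      exact_mod_cast congrArg (fun r : ℚ => (r : ℂ)) h2
    rw [h1, Complex.exp_int_mul]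
    obtain ⟨n, hn | hn⟩ := Int.eq_nat_or_neg q.num
    · rw [hn, zpow_natCast]
      exact IsAlgebraic.pow hx n
    · rw [hn, zpow_neg, zpow_natCast]
      exact (IsAlgebraic.pow hx n).inv

lemma li_lim {N : ℕ} (hN : N ≠ 0) {z : ℂ} (hz : z ^ N = 1) (hz1 : z ≠ 1) {y : ℂ}
    (hy : Tendsto (tr [((1 : ℕ), z)]) atTop (𝓝 y)) : y = -Complex.log (1 - z) := by
  have hn : ‖z‖ = 1 := Complex.norm_eq_one_of_pow_eq_one hz hN
  have h1 : Tendsto (fun n => ∑ i ∈ Finset.range n, z ^ i / (i : ℂ)) atTop (𝓝 y) := by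
    refine hy.congr fun m => ?_
    rw [range_eq _ le_rfl]
    refine Finset.sum_congr rfl fun j _ => ?_
    rw [tr_nil, pow_one, mul_one]
  have h2 := Complex.tendsto_tsum_powerSeries_nhdsWithin_lt h1
  rw [tendsto_map'_iff] at h2
  have h3 : Tendsto (fun x : ℝ => -Complex.log (1 - z * x)) (𝓝[<] 1) (𝓝 y) := by
    refine h2.congr' ?_
    have h4 : Set.Ioo (0 : ℝ) 1 ∈ 𝓝[<] (1 : ℝ) := Ioo_mem_nhdsLT (by norm_num)
    filter_upwards [h4] with x hx
    have h5 : ‖z * (x : ℂ)‖ < 1 := by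
      rw [norm_mul, hn, one_mul, Complex.norm_real, Real.norm_of_nonneg hx.1.le]
      exact hx.2
    have h6 := (Complex.hasSum_taylorSeries_neg_log h5).tsum_eq
    simp only [Function.comp]
    rw [← h6]
    refine tsum_congr fun n => ?_
    rw [mul_pow]
    ring
  have hre : 0 < (1 - z).re := by
    rw [Complex.sub_re, Complex.one_re]
    have h4 : z.re < 1 := by
      refine lt_of_le_of_ne ((Complex.re_le_norm z).trans hn.le) ?_
      intro h5
      apply hz1
      have h6 := Complex.sq_norm_sub_sq_re z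
      rw [hn, h5] at h6
      have h7 : z.im = 0 := by
        have h8 : z.im ^ 2 = 0 := by linarith
        exact pow_eq_zero_iff (by norm_num) |>.1 h8
      exact Complex.ext (by rw [h5, Complex.one_re]) (by rw [h7, Complex.one_im])
    linarith
  have h4 : Tendsto (fun x : ℝ => -Complex.log (1 - z * x)) (𝓝[<] 1) (𝓝 (-Complex.log (1 - z))) := by
    refine Tendsto.neg ?_
    have h5 : ContinuousAt (fun x : ℝ => Complex.log (1 - z * x)) 1 := by
      refine ContinuousAt.clog (by fun_prop) ?_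
      rw [Complex.ofReal_one, mul_one]
      exact Or.inl hre
    have h6 := h5.tendsto
    rw [Complex.ofReal_one, mul_one] at h6
    exact h6.mono_left nhdsWithin_le_nhds
  have h5 : y = -Complex.log (1 - z) := tendsto_nhds_unique h3 h4
  exact h5

lemma Zs_lg {N : ℕ} (hN : N ≠ 0) : Zs N 1 ≤ lg := by
  refine Submodule.span_le.2 ?_
  rintro x ⟨u, ⟨h0, h1, h2, h3⟩, hx⟩
  cases u with
  | nil => exact absurd rfl h0
  | cons p t =>
    obtain ⟨a, z⟩ := p
    have ha := h1 (a, z) List.mem_cons_self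
    rw [List.map_cons, List.sum_cons] at h2
    have ht : t = [] := by
      cases t with
      | nil => rfl
      | cons q t' =>
        have hq := h1 q (List.mem_cons_of_mem _ List.mem_cons_self)
        rw [List.map_cons, List.sum_cons] at h2
        have := ha.1
        have := hq.1
        simp only at *
        omega
    subst ht
    have ha1 : a = 1 := by
      simpa using h2
    subst ha1
    have hz1 : z ≠ 1 := by
      intro h
      refine h3 (1, z) (by simp) ?_
      rw [h]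
    have h4 := li_lim hN ha.2 hz1 hx
    change IsAlgebraic ℚ (Complex.exp x)
    rw [h4, Complex.exp_neg, Complex.exp_log (sub_ne_zero.2 hz1.symm)]
    refine IsAlgebraic.inv (isAlgebraic_one.sub ?_)
    refine IsAlgebraic.of_pow (Nat.pos_of_ne_zero hN) ?_
    have : z ^ N = 1 := ha.2
    rw [this]
    exact isAlgebraic_one

lemma le_Pq {N : ℕ} (hN : N ≠ 0) :
    finrank ℚ (Zs N 1) ≤ finrank (algebraicClosure ℚ ℂ) (Pq N 1) := by
  haveI := Zs_finite hN 1
  haveI := Pq_finite hN 1
  set l : Fin (finrank ℚ (Zs N 1)) → ℂ := fun i => ((finBasis ℚ (Zs N 1) i : Zs N 1) : ℂ) with hl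
  have h1 : LinearIndependent ℚ l :=
    (finBasis ℚ (Zs N 1)).linearIndependent.map' (Zs N 1).subtype (Submodule.ker_subtype _)
  have h2 : ∀ i, IsAlgebraic ℚ (Complex.exp (l i)) := fun i =>
    Zs_lg hN (finBasis ℚ (Zs N 1) i).2
  have h3 : ∀ i, l i ∈ Pq N 1 := fun i => Submodule.subset_span (finBasis ℚ (Zs N 1) i).2
  have h4 : LinearIndependent (algebraicClosure ℚ ℂ) (fun i => (⟨l i, h3 i⟩ : Pq N 1)) := by
    rw [Fintype.linearIndependent_iff]
    intro g hg i
    have h5 := congrArg Subtype.val hg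
    rw [Submodule.coe_sum] at h5
    have h6 := Pool.Agent.H297R2.baker l h2 h1 (fun i => (g i : ℂ)) (fun i =>
      mem_algebraicClosure_iff.1 (g i).2) (by
      rw [Submodule.coe_zero] at h5
      rw [← h5]
      exact Finset.sum_congr rfl fun j _ => rfl) i
    exact Subtype.ext h6
  have h7 := h4.fintype_card_le_finrank
  rwa [Fintype.card_fin] at h7

/-- the lower bound from the weight one -/
theorem main4 {N : ℕ} (hN : 2 ≤ N) (w : ℕ) (hw : 1 ≤ w) :
    w * (finrank ℚ (Zs N 1) - 1) + 1 ≤ finrank (algebraicClosure ℚ ℂ) (Pq N w) := by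
  have hN0 : N ≠ 0 := by omega
  have h0 := le_Pq hN0
  have hd : 1 ≤ finrank ℚ (Zs N 1) := by
    rcases hN.eq_or_lt with rfl | h3
    · exact le_trans (by omega) (main2 1 le_rfl)
    · exact le_trans (by omega) (main3 N 1 h3 le_rfl)
  induction w, hw using Nat.le_induction with
  | base => omega
  | succ w hw ih =>
    have h1 := superadd hN hw (le_refl 1)
    obtain ⟨d, hd'⟩ : ∃ d, finrank ℚ (Zs N 1) = d + 1 := ⟨_, (Nat.sub_add_cancel hd).symm⟩
    rw [hd'] at ih h0 ⊢
    simp only [Nat.add_sub_cancel] at ih ⊢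
    have h2 : (w + 1) * d = w * d + d := by ring
    omega

end Pool.Agent.K1H90.AL
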